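import Mathlib

/-!
# Aut(V)-pairs (MP_2a19db_al): the core

`S` is a subsemigroup of `End V` which contains all idempotents of rank `r` and, for every
subspace of dimension `n - r`, a map with this kernel.  Then `S` contains all maps of rank at
most `r` (`0 < r < n`).
-/

set_option autoImplicit false

open Module

namespace Pool.Agent.Helper31.AV

variable {F V : Type*} [Field F] [AddCommGroup V] [Module F V] [FiniteDimensional F V]

/-- the rank -/
noncomputable abbrev rk (s : Module.End F V) : ℕ := finrank F (LinearMap.range s)

/-- all idempotents of rank `r` -/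
def Idem (S : Subsemigroup (Module.End F V)) (r : ℕ) : Prop :=
  ∀ U W : Submodule F V, IsCompl U W → finrank F U = r →
    ∃ e ∈ S, (∀ u ∈ U, e u = u) ∧ ∀ w ∈ W, e w = 0

omit [FiniteDimensional F V] in
/-- the projection onto `U` along `W` -/
theorem exists_proj {U W : Submodule F V} (h : IsCompl U W) : ∃ x : Module.End F V, LinearMap.range x = U ∧
    (∀ u ∈ U, x u = u) ∧ ∀ w ∈ W, x w = 0 := by
  refine ⟨U.subtype ∘ₗ U.projectionOnto W h, ?_, ?_, ?_⟩
  · rw [LinearMap.range_comp, Submodule.range_projectionOnto, Submodule.map_top, Submodule.range_subtype]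
  · intro u hu
    rw [LinearMap.comp_apply]
    have := Submodule.projectionOnto_apply_left h ⟨u, hu⟩
    rw [this]
    rfl
  · intro w hw
    rw [LinearMap.comp_apply]
    have := Submodule.projectionOnto_apply_right h ⟨w, hw⟩
    rw [this]
    simp

omit [FiniteDimensional F V] in
theorem persp {S : Subsemigroup (Module.End F V)} {r : ℕ} (hS : Idem S r) {s s' : Module.End F V} {d : V}
    (hs : s ∈ S) (hr : rk s' = r) (hd : d ∉ LinearMap.range s') (h : ∀ v, ∃ c : F, s' v - s v = c • d) :
    s' ∈ S := by
  have hdis : Disjoint (Submodule.span F {d}) (LinearMap.range s') :=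
    (Submodule.disjoint_span_singleton.2 (fun h => absurd h hd)).symm
  obtain ⟨W, hW1, hW2⟩ := hdis.exists_isCompl
  obtain ⟨e, he, he1, he2⟩ := hS (LinearMap.range s') W hW2.symm hr
  have : e * s = s' := by
    ext v
    obtain ⟨c, hc⟩ := h v
    have h1 : s v = s' v - c • d := by rw [← hc]; abel
    rw [Module.End.mul_apply, h1, map_sub, he1 _ (LinearMap.mem_range_self s' v), map_smul,
      he2 d (hW1 (Submodule.mem_span_singleton_self d)), smul_zero, sub_zero]
  rw [← this]
  exact S.mul_mem he hs

theorem rk_of_ker {s s' : Module.End F V} (h : LinearMap.ker s = LinearMap.ker s') : rk s = rk s' := by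
  have h1 := LinearMap.finrank_range_add_finrank_ker s
  have h2 := LinearMap.finrank_range_add_finrank_ker s'
  rw [h] at h1
  unfold rk
  omega

theorem update {S : Subsemigroup (Module.End F V)} {r : ℕ} (hS : Idem S r) (hrn : r < finrank F V)
    {s : Module.End F V} (hs : s ∈ S) (hsr : rk s = r) (f : V →ₗ[F] F) (hf : ∀ v, s v = 0 → f v = 0) (d : V)
    (hr : rk (s + f.smulRight d) = r) : s + f.smulRight d ∈ S := by
  by_cases hd : d ∈ LinearMap.range (s + f.smulRight d)
  · have hle : LinearMap.range s ≤ LinearMap.range (s + f.smulRight d) := by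
      rintro _ ⟨v, rfl⟩
      have : s v = (s + f.smulRight d) v - f v • d := by simp
      rw [this]
      exact Submodule.sub_mem _ (LinearMap.mem_range_self _ v) (Submodule.smul_mem _ _ hd)
    have heq : LinearMap.range s = LinearMap.range (s + f.smulRight d) :=
      Submodule.eq_of_le_of_finrank_eq hle (hsr.trans hr.symm)
    obtain ⟨v0, hv0⟩ : ∃ v0, v0 ∉ LinearMap.range s := by
      by_contra hcon
      push Not at hcon
      have : LinearMap.range s = ⊤ := by
        rw [eq_top_iff]
        intro v _
        exact hcon v
      have h2 : rk s = finrank F V := by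
        unfold rk
        rw [this, finrank_top]
      omega
    have hz : ∀ x, (s + f.smulRight v0) x = 0 → s x = 0 := by
      intro x hx
      have h1 : s x + f x • v0 = 0 := by simpa using hx
      by_cases hfx : f x = 0
      · rw [hfx, zero_smul, add_zero] at h1
        exact h1
      · exfalso
        apply hv0
        have : v0 = (-(f x)⁻¹) • s x := by
          have h2 : s x = -(f x • v0) := eq_neg_of_add_eq_zero_left h1
          rw [h2, smul_neg, neg_smul, neg_neg, smul_smul, inv_mul_cancel₀ hfx, one_smul]
        rw [this]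
        exact Submodule.smul_mem _ _ (LinearMap.mem_range_self s x)
    have hker : LinearMap.ker (s + f.smulRight v0) = LinearMap.ker s := by
      ext x
      rw [LinearMap.mem_ker, LinearMap.mem_ker]
      refine ⟨hz x, fun hx => ?_⟩
      simp [hx, hf x hx]
    have hrk : rk (s + f.smulRight v0) = r := (rk_of_ker hker).trans hsr
    have hv0' : v0 ∉ LinearMap.range (s + f.smulRight v0) := by
      rintro ⟨x, hx⟩
      have h1 : s x + f x • v0 = v0 := by simpa using hx
      have h2 : (1 - f x) • v0 = s x := by
        rw [sub_smul, one_smul]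
        nth_rewrite 1 [← h1]
        abel
      by_cases hfx : 1 - f x = 0
      · rw [hfx, zero_smul] at h2
        have := hf x h2.symm
        rw [this] at hfx
        simp at hfx
      · apply hv0
        have : v0 = (1 - f x)⁻¹ • s x := by rw [← h2, smul_smul, inv_mul_cancel₀ hfx, one_smul]
        rw [this]
        exact Submodule.smul_mem _ _ (LinearMap.mem_range_self s x)
    have h2S : s + f.smulRight v0 ∈ S := persp hS hs hrk hv0' (fun v => ⟨f v, by simp⟩)
    apply persp hS h2S hr (d := d - v0)
    · rw [← heq]
      intro hcon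
      apply hv0
      have : v0 = d - (d - v0) := by abel
      rw [this]
      exact Submodule.sub_mem _ (heq ▸ hd) hcon
    · intro v
      refine ⟨f v, ?_⟩
      simp only [LinearMap.add_apply, LinearMap.smulRight_apply, smul_sub]
      abel
  · exact persp hS hs hr hd (fun v => ⟨f v, by simp⟩)

theorem rk_mul_inj {s t : Module.End F V} (ht : Function.Injective t) : rk (t * s) = rk s := by
  apply rk_of_ker
  ext x
  rw [LinearMap.mem_ker, LinearMap.mem_ker, Module.End.mul_apply]
  constructor
  · intro h
    exact ht (by rw [h, map_zero])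
  · intro h
    rw [h, map_zero]

section matrices

variable {ι : Type*} [Fintype ι] [DecidableEq ι] (b : Basis ι F V)

omit [FiniteDimensional F V] in
theorem toLin_one_single (i j : ι) (c : F) (v : V) :
    Matrix.toLin b b (1 + Matrix.single i j c) v = v + (c * b.coord j v) • b i := by
  have : Matrix.toLin b b (1 + Matrix.single i j c) =
      LinearMap.id + (c • b.coord j).smulRight (b i) := by
    apply b.ext
    intro k
    rw [Matrix.toLin_self]
    simp only [Matrix.add_apply, add_smul, Finset.sum_add_distrib, LinearMap.add_apply, LinearMap.id_coe, id_eq,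
      LinearMap.smulRight_apply, LinearMap.smul_apply, Basis.coord_apply, Basis.repr_self, smul_eq_mul]
    congr 1
    · simp [Matrix.one_apply]
    · simp only [Matrix.single_apply]
      by_cases hjk : j = k
      · subst hjk
        simp
      · rw [Finsupp.single_apply, if_neg (fun h => hjk h.symm)]
        simp [hjk]
  rw [this]
  simp

/-- multiplication by the matrix `M` preserves the elements of rank `r` of `S` -/
def Pres (S : Subsemigroup (Module.End F V)) (r : ℕ) (M : Matrix ι ι F) : Prop :=
  ∀ s ∈ S, rk s = r → Matrix.toLin b b M * s ∈ S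

omit [FiniteDimensional F V] in
theorem inj_of_det {M : Matrix ι ι F} (hM : M.det ≠ 0) : Function.Injective (Matrix.toLin b b M) := by
  have hu : IsUnit M := (Matrix.isUnit_iff_isUnit_det M).2 (isUnit_iff_ne_zero.2 hM)
  obtain ⟨u, hu⟩ := hu
  have h1 : Matrix.toLin b b (↑u⁻¹ : Matrix ι ι F) ∘ₗ Matrix.toLin b b M = LinearMap.id := by
    rw [← Matrix.toLin_mul, ← hu, Units.inv_mul, Matrix.toLin_one]
  intro x y hxy
  have := congrArg (Matrix.toLin b b (↑u⁻¹ : Matrix ι ι F)) hxy
  rw [← LinearMap.comp_apply, ← LinearMap.comp_apply, h1] at this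
  simpa using this

theorem pres_single {S : Subsemigroup (Module.End F V)} {r : ℕ} (hS : Idem S r) (hrn : r < finrank F V)
    (i j : ι) (c : F) (hdet : (1 + Matrix.single i j c).det ≠ 0) : Pres b S r (1 + Matrix.single i j c) := by
  intro s hs hsr
  have heq : Matrix.toLin b b (1 + Matrix.single i j c) * s =
      s + ((c • b.coord j) ∘ₗ s).smulRight (b i) := by
    ext v
    rw [Module.End.mul_apply, toLin_one_single]
    simp
  have hrk : rk (Matrix.toLin b b (1 + Matrix.single i j c) * s) = r :=
    (rk_mul_inj (inj_of_det b hdet)).trans hsr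
  rw [heq] at hrk ⊢
  apply update hS hrn hs hsr _ _ _ hrk
  intro v hv
  simp [hv]

theorem pres_all {S : Subsemigroup (Module.End F V)} {r : ℕ} (hS : Idem S r) (hrn : r < finrank F V)
    (M : Matrix ι ι F) (hM : M.det ≠ 0) : Pres b S r M := by
  have hmul : ∀ A B : Matrix ι ι F, A.det ≠ 0 → B.det ≠ 0 → Pres b S r A → Pres b S r B → Pres b S r (A * B) := by
    intro A B _ hB hA hB' s hs hsr
    have : Matrix.toLin b b (A * B) * s = Matrix.toLin b b A * (Matrix.toLin b b B * s) := by
      rw [Matrix.toLin_mul b b b]
      rfl
    rw [this]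
    exact hA _ (hB' s hs hsr) ((rk_mul_inj (inj_of_det b hB)).trans hsr)
  apply Matrix.diagonal_transvection_induction_of_det_ne_zero _ M hM
  · intro D hD
    have hD' : ∀ i, D i ≠ 0 := by
      rw [Matrix.det_diagonal, Finset.prod_ne_zero_iff] at hD
      exact fun i => hD i (Finset.mem_univ i)
    have key : ∀ T : Finset ι, ∀ D : ι → F, (∀ i, D i ≠ 0) → (∀ i, i ∉ T → D i = 1) →
        Pres b S r (Matrix.diagonal D) := by
      intro T
      induction T using Finset.induction_on with
      | empty =>
        intro D _ hD1 s hs _
        have : D = fun _ => 1 := funext (fun i => hD1 i (Finset.notMem_empty i))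
        rw [this, Matrix.diagonal_one, Matrix.toLin_one]
        exact hs
      | insert i T hi ih =>
        intro D hD0 hD1
        have hdiag : Matrix.diagonal D =
            (1 + Matrix.single i i (D i - 1)) * Matrix.diagonal (Function.update D i 1) := by
          have h1 : (1 + Matrix.single i i (D i - 1) : Matrix ι ι F) =
              Matrix.diagonal (Function.update (fun _ => (1 : F)) i (D i)) := by
            ext k l
            simp only [Matrix.add_apply, Matrix.one_apply, Matrix.single_apply, Matrix.diagonal_apply,
              Function.update_apply]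
            by_cases hkl : k = l
            · subst hkl
              by_cases hki : k = i
              · subst hki; simp
              · have : ¬ (i = k) := fun h => hki h.symm
                simp [hki, this]
            · have : ¬ (i = k ∧ i = l) := fun h => hkl (h.1.symm.trans h.2)
              simp [hkl, this]
          rw [h1, Matrix.diagonal_mul_diagonal]
          congr 1
          funext k
          by_cases hki : k = i
          · subst hki; simp
          · simp [hki]
        have hdet1 : (1 + Matrix.single i i (D i - 1) : Matrix ι ι F).det ≠ 0 := by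
          intro h0
          have h2 : (Matrix.diagonal D).det = 0 := by rw [hdiag, Matrix.det_mul, h0, zero_mul]
          rw [Matrix.det_diagonal, Finset.prod_eq_zero_iff] at h2
          obtain ⟨k, _, hk⟩ := h2
          exact hD0 k hk
        have hdet2 : (Matrix.diagonal (Function.update D i 1)).det ≠ 0 := by
          rw [Matrix.det_diagonal, Finset.prod_ne_zero_iff]
          intro k _
          by_cases hki : k = i
          · subst hki; simp
          · simp [hki, hD0 k]
        rw [hdiag]
        apply hmul _ _ hdet1 hdet2 (pres_single b hS hrn i i _ hdet1)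
        apply ih
        · intro k
          by_cases hki : k = i
          · subst hki; simp
          · simp [hki, hD0 k]
        · intro k hk
          by_cases hki : k = i
          · subst hki; simp
          · rw [Function.update_of_ne hki]
            exact hD1 k (by rw [Finset.mem_insert]; tauto)
    exact key Finset.univ D hD' (fun i hi => absurd (Finset.mem_univ i) hi)
  · intro t
    have := pres_single b hS hrn t.i t.j t.c (by
      have h := Matrix.TransvectionStruct.det t
      unfold Matrix.TransvectionStruct.toMatrix Matrix.transvection at h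
      rw [h]
      exact one_ne_zero)
    exact this
  · exact hmul

end matrices

theorem pres_equiv {S : Subsemigroup (Module.End F V)} {r : ℕ} (hS : Idem S r) (hrn : r < finrank F V)
    (P : V ≃ₗ[F] V) {s : Module.End F V} (hs : s ∈ S) (hsr : rk s = r) : (P : V →ₗ[F] V) * s ∈ S := by
  classical
  let b := Module.finBasis F V
  have hdet : (LinearMap.toMatrix b b (P : V →ₗ[F] V)).det ≠ 0 := by
    have h1 : LinearMap.det (P : V →ₗ[F] V) ≠ 0 := (LinearEquiv.isUnit_det' P).ne_zero
    rwa [← LinearMap.det_toMatrix b] at h1
  have := pres_all b hS hrn _ hdet s hs hsr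
  rwa [Matrix.toLin_toMatrix] at this

/-- two maps with the same kernel differ by an automorphism on the left -/
theorem same_ker {s s' : Module.End F V} (h : LinearMap.ker s = LinearMap.ker s') :
    ∃ P : V ≃ₗ[F] V, s' = (P : V →ₗ[F] V) * s := by
  obtain ⟨C, hC⟩ := Submodule.exists_isCompl (LinearMap.range s)
  obtain ⟨C', hC'⟩ := Submodule.exists_isCompl (LinearMap.range s')
  let φ : LinearMap.range s ≃ₗ[F] LinearMap.range s' :=
    s.quotKerEquivRange.symm ≪≫ₗ (Submodule.quotEquivOfEq _ _ h) ≪≫ₗ s'.quotKerEquivRange
  have hφ : ∀ v, (φ ⟨s v, LinearMap.mem_range_self s v⟩ : V) = s' v := by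
    intro v
    have h1 : s.quotKerEquivRange.symm ⟨s v, LinearMap.mem_range_self s v⟩ = Submodule.Quotient.mk v := by
      rw [LinearEquiv.symm_apply_eq]
      ext
      rw [LinearMap.quotKerEquivRange_apply_mk]
    show ((s'.quotKerEquivRange (Submodule.quotEquivOfEq _ _ h
      (s.quotKerEquivRange.symm ⟨s v, LinearMap.mem_range_self s v⟩)) : LinearMap.range s') : V) = s' v
    rw [h1, Submodule.quotEquivOfEq_mk, LinearMap.quotKerEquivRange_apply_mk]
  have hfin : finrank F C = finrank F C' := by
    have h1 := Submodule.finrank_add_eq_of_isCompl hC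
    have h2 := Submodule.finrank_add_eq_of_isCompl hC'
    have h3 : rk s = rk s' := rk_of_ker h
    unfold rk at h3
    omega
  let ψ : C ≃ₗ[F] C' := LinearEquiv.ofFinrankEq _ _ hfin
  let P : V ≃ₗ[F] V := (Submodule.prodEquivOfIsCompl _ _ hC).symm ≪≫ₗ (φ.prodCongr ψ) ≪≫ₗ
    (Submodule.prodEquivOfIsCompl _ _ hC')
  refine ⟨P, ?_⟩
  ext v
  rw [Module.End.mul_apply]
  have h1 : (Submodule.prodEquivOfIsCompl _ _ hC).symm (s v) = (⟨s v, LinearMap.mem_range_self s v⟩, 0) :=
    Submodule.prodEquivOfIsCompl_symm_apply_left _ _ hC ⟨s v, LinearMap.mem_range_self s v⟩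
  show s' v = (Submodule.prodEquivOfIsCompl _ _ hC') ((φ.prodCongr ψ)
    ((Submodule.prodEquivOfIsCompl _ _ hC).symm (s v)))
  rw [h1]
  have h2 : (φ.prodCongr ψ) (⟨s v, LinearMap.mem_range_self s v⟩, 0) =
      (φ ⟨s v, LinearMap.mem_range_self s v⟩, 0) := by
    simp [LinearEquiv.prodCongr_apply]
  rw [h2, Submodule.coe_prodEquivOfIsCompl']
  simp [hφ]

/-- all maps of rank `r` -/
theorem top {S : Subsemigroup (Module.End F V)} {r : ℕ} (hS : Idem S r) (hrn : r < finrank F V)
    (hK : ∀ W : Submodule F V, finrank F W + r = finrank F V → ∃ s ∈ S, LinearMap.ker s = W)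
    {s : Module.End F V} (hs : rk s = r) : s ∈ S := by
  have h1 := LinearMap.finrank_range_add_finrank_ker s
  obtain ⟨s0, hs0, hk⟩ := hK (LinearMap.ker s) (by unfold rk at hs; omega)
  obtain ⟨P, hP⟩ := same_ker hk
  rw [hP]
  exact pres_equiv hS hrn P hs0 ((rk_of_ker hk).trans hs)

/-- a map of rank `k` is a product of two maps of rank `k + 1`, if `k + 1 < n` -/
theorem down {S : Subsemigroup (Module.End F V)} {k : ℕ} (hk : k + 1 < finrank F V)
    (hS : ∀ s : Module.End F V, rk s = k + 1 → s ∈ S) {b : Module.End F V} (hb : rk b = k) : b ∈ S := by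
  -- a vector in the kernel
  have h1 := LinearMap.finrank_range_add_finrank_ker b
  obtain ⟨w, hw, hw0⟩ : ∃ w ∈ LinearMap.ker b, w ≠ 0 := by
    have : LinearMap.ker b ≠ ⊥ := by
      intro h
      rw [h, finrank_bot] at h1
      unfold rk at hb
      omega
    exact Submodule.exists_mem_ne_zero_of_ne_bot this
  obtain ⟨f, hf⟩ : ∃ f : V →ₗ[F] F, f w ≠ 0 := by
    by_contra hcon
    push Not at hcon
    exact hw0 ((Module.forall_dual_apply_eq_zero_iff F w).1 hcon)
  obtain ⟨v, hv⟩ : ∃ v, v ∉ LinearMap.range b := by
    by_contra hcon
    push Not at hcon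
    have : LinearMap.range b = ⊤ := by
      rw [eq_top_iff]
      intro v _
      exact hcon v
    unfold rk at hb
    rw [this, finrank_top] at hb
    omega
  have hsup : ∀ x : V, x ∉ LinearMap.range b →
      finrank F (LinearMap.range b ⊔ Submodule.span F {x} : Submodule F V) = k + 1 := by
    intro x hx
    have hx0 : x ≠ 0 := by
      rintro rfl
      exact hx (Submodule.zero_mem _)
    have h2 := Submodule.finrank_sup_add_finrank_inf_eq (LinearMap.range b) (Submodule.span F {x})
    have h3 : LinearMap.range b ⊓ Submodule.span F {x} = ⊥ :=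
      disjoint_iff.1 (Submodule.disjoint_span_singleton.2 (fun h => absurd h hx))
    rw [h3, finrank_bot, finrank_span_singleton hx0] at h2
    unfold rk at hb
    omega
  -- the second factor
  have hcr : LinearMap.range (b + f.smulRight v) = LinearMap.range b ⊔ Submodule.span F {v} := by
    apply le_antisymm
    · rintro _ ⟨x, rfl⟩
      simp only [LinearMap.add_apply, LinearMap.smulRight_apply]
      exact Submodule.add_mem_sup (LinearMap.mem_range_self b x)
        (Submodule.smul_mem _ _ (Submodule.mem_span_singleton_self v))
    · have hvm : v ∈ LinearMap.range (b + f.smulRight v) := by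
        refine ⟨(f w)⁻¹ • w, ?_⟩
        have hbw : b w = 0 := hw
        simp [hbw, smul_smul, hf]
      apply sup_le
      · rintro _ ⟨x, rfl⟩
        have : b x = (b + f.smulRight v) x - f x • v := by simp
        rw [this]
        exact Submodule.sub_mem _ (LinearMap.mem_range_self _ x) (Submodule.smul_mem _ _ hvm)
      · rw [Submodule.span_singleton_le_iff_mem]
        exact hvm
  have hcS : b + f.smulRight v ∈ S := by
    apply hS
    unfold rk
    rw [hcr]
    exact hsup v hv
  -- the first factor
  obtain ⟨v2, hv2⟩ : ∃ v2, v2 ∉ LinearMap.range b ⊔ Submodule.span F {v} := by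
    by_contra hcon
    push Not at hcon
    have h3 : LinearMap.range b ⊔ Submodule.span F {v} = ⊤ := by
      rw [eq_top_iff]
      intro v _
      exact hcon v
    have h4 := hsup v hv
    rw [h3, finrank_top] at h4
    omega
  have hv2b : v2 ∉ LinearMap.range b := fun h => hv2 (Submodule.mem_sup_left h)
  have hvv2 : v ∉ LinearMap.range b ⊔ Submodule.span F {v2} := by
    intro hcon
    obtain ⟨y, hy, z, hz, hyz⟩ := Submodule.mem_sup.1 hcon
    obtain ⟨c, rfl⟩ := Submodule.mem_span_singleton.1 hz
    by_cases hc : c = 0
    · subst hc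
      rw [zero_smul, add_zero] at hyz
      exact hv (hyz ▸ hy)
    · apply hv2
      have : v2 = (-(c⁻¹)) • y + c⁻¹ • v := by
        rw [← hyz, smul_add, smul_smul, inv_mul_cancel₀ hc, one_smul, neg_smul]
        abel
      rw [this]
      exact Submodule.add_mem_sup (Submodule.smul_mem _ _ hy)
        (Submodule.smul_mem _ _ (Submodule.mem_span_singleton_self v))
  have hdis : Disjoint (Submodule.span F {v}) (LinearMap.range b ⊔ Submodule.span F {v2}) :=
    (Submodule.disjoint_span_singleton.2 (fun h => absurd h hvv2)).symm
  obtain ⟨W, hW1, hW2⟩ := hdis.exists_isCompl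
  obtain ⟨x, hx1, hx2, hx3⟩ : ∃ x : Module.End F V, rk x = k + 1 ∧
      (∀ u ∈ LinearMap.range b ⊔ Submodule.span F {v2}, x u = u) ∧ ∀ w ∈ W, x w = 0 := by
    obtain ⟨x, h1, h2, h3⟩ := exists_proj hW2.symm
    refine ⟨x, ?_, h2, h3⟩
    unfold rk
    rw [h1]
    exact hsup v2 hv2b
  have hxS := hS x hx1
  have : x * (b + f.smulRight v) = b := by
    ext y
    rw [Module.End.mul_apply]
    simp only [LinearMap.add_apply, LinearMap.smulRight_apply, map_add, map_smul]
    rw [hx2 _ (Submodule.mem_sup_left (LinearMap.mem_range_self b y)),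
      hx3 v (hW1 (Submodule.mem_span_singleton_self v)), smul_zero, add_zero]
  rw [← this]
  exact S.mul_mem hxS hcS

/-- all maps of rank at most `r` -/
theorem all_le {S : Subsemigroup (Module.End F V)} {r : ℕ} (hS : Idem S r) (hrn : r < finrank F V)
    (hK : ∀ W : Submodule F V, finrank F W + r = finrank F V → ∃ s ∈ S, LinearMap.ker s = W)
    {s : Module.End F V} (hs : rk s ≤ r) : s ∈ S := by
  have key : ∀ j, j ≤ r → ∀ s : Module.End F V, rk s = r - j → s ∈ S := by
    intro j
    induction j with
    | zero =>
      intro _ s hs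
      exact top hS hrn hK hs
    | succ j ih =>
      intro hj s hs
      apply down (k := r - (j + 1)) (by omega) _ hs
      intro t ht
      exact ih (by omega) t (by omega)
  exact key (r - rk s) (by omega) s (by omega)

end Pool.Agent.Helper31.AV
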